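import Mathlib
import Pool.Agent.Q18.Semi729

namespace Pool.Agent.Results.MP_82b5c7_al.AbsoluteCenter

open Q18

/-- `N_{w,G}(g)`: the number of `r`-tuples of elements of `G` on which the word `w` takes the
value `g`. -/
noncomputable def wordCount {r : ℕ} (w : FreeGroup (Fin r)) (G : Type) [Group G] (g : G) : ℕ :=
  Nat.card {x : Fin r → G // FreeGroup.lift x w = g}

/-- `χ` is the character of an irreducible complex representation of `G`. -/
def IsIrrChar {G : Type} [Group G] (χ : G → ℂ) : Prop :=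
  ∃ (n : ℕ) (ρ : Representation ℂ G (Fin n → ℂ)), ρ.IsIrreducible ∧ ρ.character = χ

/-- The inner product `⟨N_{w,G}, χ⟩ = |G|⁻¹ ∑_g N_{w,G}(g) conj (χ(g))`. -/
noncomputable def coeff {r : ℕ} (w : FreeGroup (Fin r)) (G : Type) [Group G] (χ : G → ℂ) : ℂ :=
  (Nat.card G : ℂ)⁻¹ * ∑ᶠ g : G, (wordCount w G g : ℂ) * (starRingEnd ℂ) (χ g)

/-- A finite group is semi-rational if for every `r ≥ 1` and every word `w` in `r` letters
all the coefficients `⟨N_{w,G}, χ⟩`, `χ` irreducible, are integers. -/
def SemiRational (G : Type) [Group G] : Prop :=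
  ∀ r : ℕ, 1 ≤ r → ∀ w : FreeGroup (Fin r), ∀ χ : G → ℂ, IsIrrChar χ → ∃ n : ℤ, coeff w G χ = n

/-- The absolute center `Z*(G)`: the elements fixed by all automorphisms. -/
def absoluteCenter (G : Type) [Group G] : Set G := {g | ∀ α : G ≃* G, α g = g}

theorem coeff_eq {r : ℕ} (w : FreeGroup (Fin r)) {G : Type} [Group G] [Finite G]
    [Fintype (Fin r → G)] (χ : G → ℂ) : coeff w G χ =
    (Nat.card G : ℂ)⁻¹ * ∑ x : Fin r → G, (starRingEnd ℂ) (χ (FreeGroup.lift x w)) := by
  classical
  have : Fintype G := Fintype.ofFinite G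
  unfold coeff
  rw [finsum_eq_sum_of_fintype]
  congr 1
  rw [← Finset.sum_fiberwise (s := Finset.univ) (g := fun x : Fin r → G => FreeGroup.lift x w)]
  refine Finset.sum_congr rfl fun g _ => ?_
  rw [Finset.sum_congr rfl (g := fun _ => (starRingEnd ℂ) (χ g))
    (fun x hx => by rw [(Finset.mem_filter.1 hx).2])]
  rw [Finset.sum_const, nsmul_eq_mul]
  congr 2
  unfold wordCount
  rw [Nat.card_eq_fintype_card, Fintype.card_subtype]

/-- There is a semi-rational group of order `729` whose absolute center contains an element of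
order three. -/
theorem result : ∃ (G : Type) (_ : Group G), Nat.card G = 729 ∧ SemiRational G ∧
    ∃ z ∈ absoluteCenter G, orderOf z = 3 := by
  refine ⟨M729, inferInstance, M729.card_eq, ?_, M729.z0, M729.fixed, M729.orderOf_z0⟩
  rintro r hr w χ ⟨n, ρ, hρ, rfl⟩
  rw [coeff_eq]
  exact M729.semirational hr w ρ hρ

end Pool.Agent.Results.MP_82b5c7_al.AbsoluteCenter
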